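import Pool.Agent.W413.MC.Stmts

/-! The Bockstein counting lemma. -/

set_option autoImplicit false

namespace Pool.Agent.W45.MCB

theorem idx {Q H : Type} [AddCommGroup Q] [AddCommGroup H] (V' V : AddSubgroup Q)
    (W' W : AddSubgroup H) (hV : V' ≤ V) (hW : W' ≤ W) [Finite V] [Finite W] (f : Q → H)
    (hf : ∀ q ∈ V, f q ∈ W)
    (h : ∀ q ∈ V, ∀ q' ∈ V, f q - f q' ∈ W' → q - q' ∈ V') :
    Nat.card V * Nat.card W' ≤ Nat.card V' * Nat.card W := by
  have e1 := (V'.addSubgroupOf V).card_mul_index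
  have e2 := (W'.addSubgroupOf W).card_mul_index
  have e3 : Nat.card (V'.addSubgroupOf V) = Nat.card V' :=
    Nat.card_congr (AddSubgroup.addSubgroupOfEquivOfLe hV).toEquiv
  have e4 : Nat.card (W'.addSubgroupOf W) = Nat.card W' :=
    Nat.card_congr (AddSubgroup.addSubgroupOfEquivOfLe hW).toEquiv
  rw [e3] at e1
  rw [e4] at e2
  have e5 : (V'.addSubgroupOf V).index ≤ (W'.addSubgroupOf W).index := by
    let F : V ⧸ V'.addSubgroupOf V → W ⧸ W'.addSubgroupOf W := fun q =>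
      QuotientAddGroup.mk ⟨f (Quotient.out q : V), hf _ (Quotient.out q : V).2⟩
    have hF : Function.Injective F := by
      intro a b hab
      have h1 := QuotientAddGroup.eq.1 hab
      rw [AddSubgroup.mem_addSubgroupOf] at h1
      have h2 : f (Quotient.out b : V) - f (Quotient.out a : V) ∈ W' := by
        have : f (Quotient.out b : V) - f (Quotient.out a : V) =
            -f (Quotient.out a : V) + f (Quotient.out b : V) := by abel
        rw [this]
        exact h1
      have h3 := h _ (Quotient.out b : V).2 _ (Quotient.out a : V).2 h2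
      have h4 : (QuotientAddGroup.mk (Quotient.out a) : V ⧸ V'.addSubgroupOf V) =
          QuotientAddGroup.mk (Quotient.out b) := by
        rw [QuotientAddGroup.eq, AddSubgroup.mem_addSubgroupOf]
        have : ((-Quotient.out a + Quotient.out b : V) : Q) =
            (Quotient.out b : V) - (Quotient.out a : V) := by
          push_cast; abel
        rw [this]
        exact h3
      rwa [QuotientAddGroup.out_eq', QuotientAddGroup.out_eq'] at h4
    exact Nat.card_le_card_of_injective F hF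
  calc Nat.card V * Nat.card W'
      = Nat.card V' * (V'.addSubgroupOf V).index * Nat.card W' := by rw [e1]
    _ ≤ Nat.card V' * (W'.addSubgroupOf W).index * Nat.card W' := by gcongr
    _ = Nat.card V' * (Nat.card W' * (W'.addSubgroupOf W).index) := by ring
    _ = _ := by rw [e2]

section
variable {C₁ C₂ Q H : Type} [AddCommGroup C₁] [AddCommGroup C₂] [AddCommGroup Q] [AddCommGroup H]
  (d : C₁ →+ C₂) (red : C₁ →+ Q) (Z : AddSubgroup C₂) (θ : Z →+ H)

/-- reductions of the elements whose image is divisible by `2 ^ m` -/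
def VV (m : ℕ) : AddSubgroup Q where
  carrier := {q | ∃ (x : C₁) (y : C₂), d x = 2 ^ m • y ∧ red x = q}
  zero_mem' := ⟨0, 0, by simp, by simp⟩
  add_mem' := by
    rintro _ _ ⟨x, y, h1, rfl⟩ ⟨x', y', h1', rfl⟩
    exact ⟨x + x', y + y', by rw [map_add, h1, h1', smul_add], by rw [map_add]⟩
  neg_mem' := by
    rintro _ ⟨x, y, h1, rfl⟩
    exact ⟨-x, -y, by rw [map_neg, h1, smul_neg], by rw [map_neg]⟩

/-- the values of the Bockstein map -/
def WW (m : ℕ) : AddSubgroup H where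
  carrier := {h | ∃ (x : C₁) (y : Z), d x = 2 ^ m • (y : C₂) ∧ θ y = h}
  zero_mem' := ⟨0, 0, by simp, by simp⟩
  add_mem' := by
    rintro _ _ ⟨x, y, h1, rfl⟩ ⟨x', y', h1', rfl⟩
    exact ⟨x + x', y + y', by rw [map_add, h1, h1', AddSubgroup.coe_add, smul_add],
      by rw [map_add]⟩
  neg_mem' := by
    rintro _ ⟨x, y, h1, rfl⟩
    exact ⟨-x, -y, by rw [map_neg, h1, AddSubgroup.coe_neg, smul_neg], by rw [map_neg]⟩

theorem VV_anti (m : ℕ) : VV d red (m + 1) ≤ VV d red m := by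
  rintro _ ⟨x, y, h1, rfl⟩
  exact ⟨x, 2 • y, by rw [h1, pow_succ, mul_smul], rfl⟩

theorem VV_le (m : ℕ) : VV d red (m + 1) ≤ VV d red 1 := by
  induction m with
  | zero => exact le_rfl
  | succ m ih => exact (VV_anti d red (m + 1)).trans ih

theorem WW_mono (m : ℕ) : WW d Z θ m ≤ WW d Z θ (m + 1) := by
  rintro _ ⟨x, y, h1, rfl⟩
  exact ⟨2 • x, y, by rw [map_nsmul, h1, pow_succ', mul_smul], rfl⟩

theorem step (hred : ∀ x : C₁, red x = 0 ↔ ∃ u : C₁, x = 2 • u)
    (hZ : ∀ (m : ℕ) (y : C₂) (x : C₁), d x = 2 ^ m • y → y ∈ Z)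
    (hθ : ∀ y : Z, θ y = 0 ↔ ∃ (u : C₁) (v : C₂), (y : C₂) = d u + 2 • v) [Finite H]
    (hfin : Finite (VV d red 1)) (m : ℕ) :
    Nat.card (VV d red (m + 1)) * Nat.card (WW d Z θ m) ≤
      Nat.card (VV d red (m + 2)) * Nat.card (WW d Z θ (m + 1)) := by
  classical
  have hf : Finite (VV d red (m + 1)) :=
    Set.Finite.subset (Set.toFinite (VV d red 1 : Set Q)) (VV_le d red m)
  have hch : ∀ q : Q, ∃ h : H, q ∈ VV d red (m + 1) →
      ∃ (x : C₁) (y : Z), d x = 2 ^ (m + 1) • (y : C₂) ∧ red x = q ∧ θ y = h := by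
    intro q
    by_cases hq : q ∈ VV d red (m + 1)
    · obtain ⟨x, y, h1, h2⟩ := hq
      exact ⟨θ ⟨y, hZ _ y x h1⟩, fun _ => ⟨x, ⟨y, hZ _ y x h1⟩, h1, h2, rfl⟩⟩
    · exact ⟨0, fun h => absurd h hq⟩
  choose f hf' using hch
  refine idx (VV d red (m + 2)) (VV d red (m + 1)) (WW d Z θ m) (WW d Z θ (m + 1))
    (VV_anti d red (m + 1)) (WW_mono d Z θ m) f ?_ ?_
  · intro q hq
    obtain ⟨x, y, h1, -, h3⟩ := hf' q hq
    exact ⟨x, y, h1, h3⟩
  · intro q hq q' hq' hw
    obtain ⟨x, y, h1, h2, h3⟩ := hf' q hq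
    obtain ⟨x', y', h1', h2', h3'⟩ := hf' q' hq'
    obtain ⟨u, w, h4, h5⟩ := hw
    have h6 : θ (y - y' - w) = 0 := by
      rw [map_sub, map_sub, h3, h3', h5, sub_self]
    obtain ⟨a, b, hab⟩ := (hθ _).1 h6
    rw [AddSubgroup.coe_sub, AddSubgroup.coe_sub] at hab
    refine ⟨x - x' - 2 • u - 2 ^ (m + 1) • a, b, ?_, ?_⟩
    · rw [map_sub, map_sub, map_sub, map_nsmul, map_nsmul, h1, h1', h4]
      have e1 : (2 : ℕ) • (2 ^ m • (w : C₂)) = 2 ^ (m + 1) • (w : C₂) := by
        rw [← mul_smul, ← pow_succ']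
      have e2 : 2 ^ (m + 2) • b = 2 ^ (m + 1) • ((2 : ℕ) • b) := by
        rw [← mul_smul, ← pow_succ]
      have e3 : (2 : ℕ) • b = (y : C₂) - y' - w - d a := by rw [hab]; abel
      rw [e1, e2, e3]
      simp only [smul_sub]
    · have z1 : red (2 • u) = 0 := (hred _).2 ⟨u, rfl⟩
      have z2 : red (2 ^ (m + 1) • a) = 0 :=
        (hred _).2 ⟨2 ^ m • a, by rw [← mul_smul, ← pow_succ']⟩
      rw [map_sub, map_sub, map_sub, z1, z2, h2, h2', sub_zero, sub_zero]

end

theorem main : MC.StmBock := by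
  intro C₁ C₂ Q H _ _ _ _ d red Z θ _ hred hZ hθ hH hfin M
  have e1 : {q : Q | ∃ (x : C₁) (y : C₂), d x = 2 • y ∧ red x = q} =
      (VV d red 1 : Set Q) := by
    ext q
    show _ ↔ ∃ (x : C₁) (y : C₂), d x = 2 ^ 1 • y ∧ red x = q
    rw [pow_one]
    rfl
  have e2 : {q : Q | ∃ (x : C₁) (y : C₂), d x = 2 ^ (M + 1) • y ∧ red x = q} =
      (VV d red (M + 1) : Set Q) := rfl
  rw [e1] at hfin
  have hfin' : Finite (VV d red 1) := hfin.to_subtype
  rw [e1, e2]
  have key : ∀ m : ℕ, Nat.card (VV d red 1) ≤ Nat.card (VV d red (m + 1)) * Nat.card (WW d Z θ m) := by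
    intro m
    induction m with
    | zero =>
      have : 0 < Nat.card (WW d Z θ 0) := Nat.card_pos
      exact Nat.le_mul_of_pos_right _ this
    | succ m ih => exact ih.trans (step d red Z θ hred hZ hθ hfin' m)
  refine (key M).trans ?_
  exact Nat.mul_le_mul_left _ (Nat.card_le_card_of_injective (Subtype.val) Subtype.val_injective)

end Pool.Agent.W45.MCB
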