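import Pool.Agent.W413.MC.Stmts

/-! Tame inertia in abelian extensions of 2-power degree is killed by `q - 1`. -/

set_option autoImplicit false

namespace Pool.Agent.W45.MCT

section abs
variable {S G : Type} [CommRing S] [Group G] [MulSemiringAction G S]

theorem smul_pow_mem {P : Ideal S} {g : G} (hg : ∀ x ∈ P, g • x ∈ P) (n : ℕ) :
    ∀ x ∈ P ^ n, g • x ∈ P ^ n := by
  intro x hx
  have h1 : P ≤ P.comap (MulSemiringAction.toRingHom G S g) := fun x hx => hg x hx
  have h2 : P ^ n ≤ (P ^ n).comap (MulSemiringAction.toRingHom G S g) :=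
    (Ideal.pow_right_mono h1 n).trans (Ideal.le_comap_pow _ n)
  exact h2 hx

theorem mem_of_inert {P : Ideal S} {g : G} (hg : ∀ x : S, g • x - x ∈ P) :
    ∀ x ∈ P, g • x ∈ P := by
  intro x hx
  have := P.add_mem (hg x) hx
  rwa [sub_add_cancel] at this

theorem inert_pow {P : Ideal S} {g : G} (hg : ∀ x : S, g • x - x ∈ P) (k : ℕ) :
    ∀ x : S, g ^ k • x - x ∈ P := by
  induction k with
  | zero => intro x; simp
  | succ k ih =>
    intro x
    rw [pow_succ', mul_smul]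
    have := P.add_mem (hg (g ^ k • x)) (ih x)
    rwa [sub_add_sub_cancel] at this

theorem inert2_pow {P : Ideal S} {g : G} (hg : ∀ x : S, g • x - x ∈ P)
    (hg2 : ∀ x ∈ P, g • x - x ∈ P ^ 2) (k : ℕ) : ∀ x ∈ P, g ^ k • x - x ∈ P ^ 2 := by
  induction k with
  | zero => intro x _; simp
  | succ k ih =>
    intro x hx
    rw [pow_succ' g, mul_smul]
    have := (P ^ 2).add_mem (hg2 _ (mem_of_inert (inert_pow hg k) x hx)) (ih x hx)
    rwa [sub_add_sub_cancel] at this

theorem triv_of_sq [IsDedekindDomain S] {P : Ideal S} [hPp : P.IsPrime]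
    (h2 : (2 : S) ∉ P)
    {s : G} (hs : ∀ x : S, s • s • x = x) (hA : ∀ x : S, s • x - x ∈ P)
    (hB : ∀ x ∈ P, s • x - x ∈ P ^ 2) : ∀ x : S, s • x = x := by
  -- `s - 1` raises the order
  have hup : ∀ n : ℕ, ∀ x ∈ P ^ n, s • x - x ∈ P ^ (n + 1) := by
    intro n
    induction n with
    | zero => intro x _; rw [zero_add, pow_one]; exact hA x
    | succ n ih =>
      intro x hx
      rw [pow_succ] at hx
      refine Submodule.mul_induction_on hx ?_ ?_
      · intro a ha b hb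
        have e : s • (a * b) - a * b = (s • a - a) * b + s • a * (s • b - b) := by
          rw [smul_mul']; ring
        show s • (a * b) - a * b ∈ P ^ (n + 1 + 1)
        rw [e]
        refine (P ^ (n + 1 + 1)).add_mem ?_ ?_
        · rw [pow_succ]
          exact Ideal.mul_mem_mul (ih a ha) hb
        · have h1 : P ^ (n + 1 + 1) = P ^ n * P ^ 2 := by rw [← pow_add]
          rw [h1]
          exact Ideal.mul_mem_mul (smul_pow_mem (mem_of_inert hA) n a ha) (hB b hb)
      · intro a b ha hb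
        have e : s • (a + b) - (a + b) = (s • a - a) + (s • b - b) := by
          rw [smul_add]; ring
        rw [e]
        exact (P ^ (n + 1 + 1)).add_mem ha hb
  intro x
  have hall : ∀ n : ℕ, s • x - x ∈ P ^ n := by
    intro n
    induction n with
    | zero => simp
    | succ n ih =>
      have h3 := hup n _ ih
      have e : s • (s • x - x) - (s • x - x) = (s • x - x) * (-2) := by
        rw [smul_sub, hs]; ring
      rw [e] at h3
      rcases Ideal.IsPrime.mem_pow_mul P h3 with h4 | h4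
      · exact h4
      · exact absurd (by simpa using h4) h2
  have hbot : s • x - x ∈ ⨅ n : ℕ, P ^ n := by
    rw [Ideal.mem_iInf]
    exact hall
  rw [Ideal.iInf_pow_eq_bot_of_isDomain P hPp.ne_top, Ideal.mem_bot] at hbot
  exact sub_eq_zero.1 hbot

theorem triv_of_pow [IsDedekindDomain S] {P : Ideal S} [P.IsPrime]
    (h2 : (2 : S) ∉ P)
    {s : G} (hA : ∀ x : S, s • x - x ∈ P)
    (hB : ∀ x ∈ P, s • x - x ∈ P ^ 2) (t : ℕ) (hs : ∀ x : S, s ^ (2 ^ t) • x = x) :
    ∀ x : S, s • x = x := by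
  induction t with
  | zero => simpa using hs
  | succ t ih =>
    apply ih
    apply triv_of_sq h2 (s := s ^ (2 ^ t))
    · intro x
      rw [← mul_smul, ← pow_add, ← two_mul, ← pow_succ']
      exact hs x
    · exact inert_pow hA _
    · exact inert2_pow hA hB _

theorem tame [IsDedekindDomain S] {P : Ideal S} [hPp : P.IsPrime] (hPb : P ≠ ⊥)
    (h2 : (2 : S) ∉ P)
    {g φ : G} (hcomm : g * φ = φ * g) {q : ℕ} (hq : 1 ≤ q) (hφ : ∀ x : S, φ • x - x ^ q ∈ P)
    (hg : ∀ x : S, g • x - x ∈ P) (e : ℕ) (hord : g ^ (2 ^ e) = 1) :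
    ∀ x : S, g ^ (q - 1) • x = x := by
  have hPm : P.IsMaximal := hPp.isMaximal hPb
  obtain ⟨π, hπ1, hπ2⟩ := Ideal.exists_mem_pow_notMem_pow_succ P hPb hPp.ne_top 1
  rw [pow_one] at hπ1
  have hπ2' : π ∉ P ^ 2 := hπ2
  have hdec : ∀ c ∈ P, ∃ v : S, ∃ e ∈ P ^ 2, π * v + e = c := by
    intro c hc
    have hc' : c ∈ P ^ 1 := by rwa [pow_one]
    have hπ' : π ∈ P ^ 1 := by rwa [pow_one]
    exact Ideal.exists_mul_add_mem_pow_succ hPb π c hπ' hπ2 hc'
  have hgP := mem_of_inert hg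
  obtain ⟨u, e0, he0, hu⟩ := hdec _ (hgP π hπ1)
  have hPP : ∀ a ∈ P, ∀ b ∈ P, a * b ∈ P ^ 2 := by
    intro a ha b hb
    rw [pow_two]
    exact Ideal.mul_mem_mul ha hb
  -- the action on `P / P ^ 2`
  have hact : ∀ x ∈ P, g • x - u * x ∈ P ^ 2 := by
    intro x hx
    obtain ⟨v, e', he', rfl⟩ := hdec x hx
    have h1 := hg v
    set p := g • v - v with hp
    have hgv : g • v = v + p := by rw [hp]; ring
    have e2 : g • (π * v + e') - u * (π * v + e') =
        (π * p) * u + e0 * (v + p) + (g • e' - u * e') := by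
      rw [smul_add, smul_mul', ← hu, hgv]; ring
    rw [e2]
    refine (P ^ 2).add_mem ((P ^ 2).add_mem ?_ ?_) ((P ^ 2).sub_mem ?_ ?_)
    · exact Ideal.mul_mem_right _ _ (hPP _ hπ1 _ h1)
    · exact Ideal.mul_mem_right _ _ he0
    · exact smul_pow_mem hgP 2 _ he'
    · exact Ideal.mul_mem_left _ _ he'
  have hactk : ∀ k : ℕ, ∀ x ∈ P, g ^ k • x - u ^ k * x ∈ P ^ 2 := by
    intro k
    induction k with
    | zero => intro x _; simp
    | succ k ih =>
      intro x hx
      have h1 := hact _ (mem_of_inert (inert_pow hg k) x hx)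
      have h3 := Ideal.mul_mem_left (P ^ 2) u (ih x hx)
      have e3 : g ^ (k + 1) • x - u ^ (k + 1) * x =
          (g • g ^ k • x - u * g ^ k • x) + u * (g ^ k • x - u ^ k * x) := by
        rw [pow_succ' g, mul_smul, pow_succ' u]; ring
      rw [e3]
      exact (P ^ 2).add_mem h1 h3
  -- the Frobenius element
  have hφP : ∀ x ∈ P, φ • x ∈ P := by
    intro x hx
    have h1 : x ^ q ∈ P := Ideal.pow_mem_of_mem P hx q (by omega)
    have := P.add_mem (hφ x) h1
    rwa [sub_add_cancel] at this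
  have hφP' : ∀ x ∈ P, φ⁻¹ • x ∈ P := by
    intro x hx
    have h1 := hφ (φ⁻¹ • x)
    rw [smul_inv_smul] at h1
    have h3 : (φ⁻¹ • x) ^ q ∈ P := by
      have := P.sub_mem hx h1
      rwa [sub_sub_cancel] at this
    exact hPp.mem_of_pow_mem q h3
  have hφπ : φ • π ∉ P ^ 2 := by
    intro h
    have := smul_pow_mem hφP' 2 _ h
    rw [inv_smul_smul] at this
    exact hπ2' this
  have huq : u ^ q - u ∈ P := by
    have h1 := hact _ (hφP π hπ1)
    have h3 : g • φ • π = φ • g • π := by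
      rw [← mul_smul, hcomm, mul_smul]
    have h4 : φ • g • π = φ • π * φ • u + φ • e0 := by
      rw [← hu, smul_add, smul_mul']
    rw [h3, h4] at h1
    have h5 : φ • π * (φ • u - u ^ q) ∈ P ^ 2 := hPP _ (hφP π hπ1) _ (hφ u)
    have h6 : φ • e0 ∈ P ^ 2 := smul_pow_mem hφP 2 _ he0
    have e4 : φ • π * (u ^ q - u) = (φ • π * φ • u + φ • e0 - u * φ • π) -
        φ • π * (φ • u - u ^ q) - φ • e0 := by ring
    have h7 : φ • π * (u ^ q - u) ∈ P ^ (1 + 1) := by
      rw [e4]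
      exact (P ^ 2).sub_mem ((P ^ 2).sub_mem h1 h5) h6
    exact Ideal.mem_prime_of_mul_mem_pow hPb hφπ h7
  have huP : u ∉ P := by
    intro h
    have h1 : g • π ∈ P ^ 2 := by
      rw [← hu]
      exact (P ^ 2).add_mem (hPP _ hπ1 _ h) he0
    have h3 : ∀ x ∈ P, g⁻¹ • x ∈ P := by
      intro x hx
      have h4 := hg (g⁻¹ • x)
      rw [smul_inv_smul] at h4
      have := P.sub_mem hx h4
      rwa [sub_sub_cancel] at this
    have h5 := smul_pow_mem h3 2 _ h1
    rw [inv_smul_smul] at h5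
    exact hπ2' h5
  have hu1 : u ^ (q - 1) - 1 ∈ P := by
    have e5 : u ^ q - u = u * (u ^ (q - 1) - 1) := by
      obtain ⟨k, rfl⟩ : ∃ k, q = k + 1 := ⟨q - 1, by omega⟩
      rw [Nat.add_sub_cancel, pow_succ']; ring
    rw [e5] at huq
    exact (hPp.mem_or_mem huq).resolve_left huP
  apply triv_of_pow h2 (inert_pow hg (q - 1)) _ e
  · intro x
    rw [← pow_mul, mul_comm, pow_mul, hord, one_pow, one_smul]
  · intro x hx
    have e6 : g ^ (q - 1) • x - x =
        (g ^ (q - 1) • x - u ^ (q - 1) * x) + (u ^ (q - 1) - 1) * x := by ring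
    rw [e6]
    exact (P ^ 2).add_mem (hactk _ x hx) (hPP _ hu1 _ hx)

end abs

open NumberField

theorem main : MC.StmTame := by
  intro L E _ _ _ _ _ _ hcomm hord P hPp hPb h2 g hg
  have : SMulCommClass (E ≃ₐ[L] E) (𝓞 L) (𝓞 E) := by
    refine ⟨fun g a b => ?_⟩
    apply RingOfIntegers.ext
    rw [Algebra.smul_def, Algebra.smul_def]
    show g ((algebraMap (𝓞 L) (𝓞 E) a : 𝓞 E) * (b : E)) =
      (algebraMap (𝓞 L) (𝓞 E) a : 𝓞 E) * g b
    rw [map_mul]
    congr 1
    exact g.commutes (a : L)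
  have hinv : Algebra.IsInvariant (𝓞 L) (𝓞 E) (E ≃ₐ[L] E) := by
    have : IsGaloisGroup (E ≃ₐ[L] E) (𝓞 L) (𝓞 E) := inferInstance
    exact this.isInvariant
  have hfin : Finite (𝓞 E ⧸ P) := Ideal.finiteQuotientOfFreeOfNeBot P hPb
  have hgi : ∀ x : 𝓞 E, g • x - x ∈ P := fun x => hg x (g • x) rfl
  obtain ⟨φ, hφ⟩ := IsArithFrobAt.exists_of_isInvariant (𝓞 L) (E ≃ₐ[L] E) P
  have hφ' : ∀ x : 𝓞 E, φ • x - x ^ Nat.card (𝓞 L ⧸ P.under (𝓞 L)) ∈ P := fun x => hφ x
  have hq : 1 ≤ Nat.card (𝓞 L ⧸ P.under (𝓞 L)) := AlgHom.IsArithFrobAt.card_pos hφ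
  obtain ⟨e, he⟩ := hord g
  have key := tame hPb h2 (hcomm g φ) hq hφ' hgi e he
  ext x
  -- `x = a / b` with `a`, `b` integers
  obtain ⟨a, b, hb, rfl⟩ := IsFractionRing.div_surjective (A := 𝓞 E) x
  have h3 : ∀ y : 𝓞 E, (g ^ (Nat.card (𝓞 L ⧸ P.under (𝓞 L)) - 1)) (algebraMap (𝓞 E) E y) =
      algebraMap (𝓞 E) E y := fun y => congrArg (fun z : 𝓞 E => (z : E)) (key y)
  rw [map_div₀, h3, h3]
  rfl

end Pool.Agent.W45.MCT
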