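import Pool.Agent.W993.MC.Stm

set_option autoImplicit false

/-! Task EXP of project MC. -/

namespace Pool.Agent.W45.MC

open Pool.Agent.W993.MC

theorem ins_prop (c : ℕ × ℂ) (hc1 : 1 ≤ c.1) (hc2 : c.2 ^ 2 = 1) (L : List (ℕ × ℂ)) :
    (∀ p ∈ L, 1 ≤ p.1 ∧ p.2 ^ 2 = 1) → ∀ K ∈ ins c L,
      K ≠ [] ∧ (∀ p ∈ K, 1 ≤ p.1 ∧ p.2 ^ 2 = 1) ∧
        (K.map Prod.fst).sum = (L.map Prod.fst).sum + c.1 := by
  induction L with
  | nil =>
    intro _ K hK
    unfold ins at hK
    rw [List.mem_singleton] at hK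
    subst hK
    refine ⟨by simp, ?_, by simp⟩
    intro p hp
    rw [List.mem_singleton] at hp
    subst hp
    exact ⟨hc1, hc2⟩
  | cons x L ih =>
    intro h K hK
    have hx := h x (by simp)
    have hL : ∀ p ∈ L, 1 ≤ p.1 ∧ p.2 ^ 2 = 1 := fun p hp => h p (by simp [hp])
    unfold ins at hK
    rw [List.mem_cons, List.mem_cons, List.mem_map] at hK
    rcases hK with rfl | rfl | ⟨K', hK', rfl⟩
    · refine ⟨by simp, ?_, ?_⟩
      · intro p hp
        rw [List.mem_cons, List.mem_cons] at hp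
        rcases hp with rfl | rfl | hp
        · exact ⟨hc1, hc2⟩
        · exact hx
        · exact hL p hp
      · simp only [List.map_cons, List.sum_cons]; omega
    · refine ⟨by simp, ?_, ?_⟩
      · intro p hp
        rw [List.mem_cons] at hp
        rcases hp with rfl | hp
        · refine ⟨by simp only; omega, ?_⟩
          simp only
          rw [mul_pow, hx.2, hc2, mul_one]
        · exact hL p hp
      · simp only [List.map_cons, List.sum_cons]; omega
    · obtain ⟨h1, h2, h3⟩ := ih hL K' hK'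
      refine ⟨by simp, ?_, ?_⟩
      · intro p hp
        rw [List.mem_cons] at hp
        rcases hp with rfl | hp
        · exact hx
        · exact h2 p hp
      · simp only [List.map_cons, List.sum_cons]; omega

theorem ins_adm (c : ℕ × ℂ) (hc1 : 1 ≤ c.1) (hc2 : c.2 ^ 2 = 1) (hc : c ≠ (1, 1)) (w : ℕ)
    (L : List (ℕ × ℂ)) (hL : Adm 2 w L) : ∀ K ∈ ins c L, Adm 2 (w + c.1) K := by
  intro K hK
  obtain ⟨h1, h2, h3, h4⟩ := hL
  obtain ⟨k1, k2, k3⟩ := ins_prop c hc1 hc2 L h2 K hK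
  refine ⟨k1, k2, by rw [k3, h3], ?_⟩
  match L, h1, h2, h4, hK with
  | x :: L, _, h2, h4, hK =>
    have hx := h2 x (by simp)
    unfold ins at hK
    rw [List.mem_cons, List.mem_cons, List.mem_map] at hK
    rcases hK with rfl | rfl | ⟨K', hK', rfl⟩
    · simpa using hc
    · simp only [List.head?_cons, ne_eq, Option.some.injEq, Prod.mk.injEq, not_and]
      intro h; omega
    · simpa using h4

/-- `f` is a sum of nested sums of admissible words of weight `w`. -/
def Good (w : ℕ) (f : ℕ → ℂ) : Prop := ∃ Ls : List (List (ℕ × ℂ)), (∀ L ∈ Ls, Adm 2 w L) ∧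
  ∀ M, f M = (Ls.map (fun K => S K M)).sum

theorem step (h1 : S_INS) (c : ℕ × ℂ) (hc1 : 1 ≤ c.1) (hc2 : c.2 ^ 2 = 1) (hc : c ≠ (1, 1))
    (w : ℕ) (f : ℕ → ℂ) (hf : Good w f) : Good (w + c.1) (fun M => f M * S [c] M) := by
  obtain ⟨Ls, hA, hs⟩ := hf
  refine ⟨Ls.flatMap (ins c), ?_, ?_⟩
  · intro K hK
    rw [List.mem_flatMap] at hK
    obtain ⟨L, hL, hK⟩ := hK
    exact ins_adm c hc1 hc2 hc w L (hA L hL) K hK
  · intro M
    simp only
    rw [hs M]
    clear hs hA
    induction Ls with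
    | nil => simp
    | cons L Ls ih =>
      rw [List.map_cons, List.sum_cons, add_mul, ih, h1, List.flatMap_cons, List.map_append,
        List.sum_append]

theorem good_single (c : ℕ × ℂ) (hc1 : 1 ≤ c.1) (hc2 : c.2 ^ 2 = 1) (hc : c ≠ (1, 1)) :
    Good c.1 (fun M => S [c] M) := by
  refine ⟨[[c]], ?_, fun M => by simp⟩
  intro L hL
  rw [List.mem_singleton] at hL
  subst hL
  refine ⟨by simp, ?_, by simp, by simpa using hc⟩
  intro p hp
  rw [List.mem_singleton] at hp
  subst hp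
  exact ⟨hc1, hc2⟩

theorem EXP (h1 : S_INS) : S_EXP := by
  have a1 : (1 : ℕ) ≤ ((1, -1) : ℕ × ℂ).1 := le_refl _
  have a2 : ((1, -1) : ℕ × ℂ).2 ^ 2 = 1 := by norm_num
  have a3 : ((1, -1) : ℕ × ℂ) ≠ (1, 1) := by
    intro h
    rw [Prod.mk.injEq] at h
    have := h.2
    norm_num at this
  have b1 : (1 : ℕ) ≤ ((2, 1) : ℕ × ℂ).1 := by norm_num
  have b2 : ((2, 1) : ℕ × ℂ).2 ^ 2 = 1 := by norm_num
  have b3 : ((2, 1) : ℕ × ℂ) ≠ (1, 1) := by
    intro h
    rw [Prod.mk.injEq] at h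
    omega
  have hj : ∀ j : ℕ, Good (2 * (j + 1)) (fun M => (S [(2, 1)] M) ^ (j + 1)) := by
    intro j
    induction j with
    | zero => simpa using good_single (2, 1) b1 b2 b3
    | succ j ih =>
      have := step h1 (2, 1) b1 b2 b3 _ _ ih
      simpa [pow_succ, mul_add, add_assoc] using this
  have hk : ∀ k j : ℕ, 1 ≤ k + 2 * j →
      Good (k + 2 * j) (fun M => (S [(1, -1)] M) ^ k * (S [(2, 1)] M) ^ j) := by
    intro k
    induction k with
    | zero =>
      intro j h
      obtain ⟨i, rfl⟩ : ∃ i, j = i + 1 := ⟨j - 1, by omega⟩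
      simpa using hj i
    | succ k ih =>
      intro j h
      rcases Nat.eq_zero_or_pos (k + 2 * j) with h0 | h0
      · obtain ⟨rfl, rfl⟩ : k = 0 ∧ j = 0 := by omega
        simpa using good_single (1, -1) a1 a2 a3
      · have := step h1 (1, -1) a1 a2 a3 _ _ (ih j h0)
        have e1 : k + 1 + 2 * j = k + 2 * j + ((1, -1) : ℕ × ℂ).1 := by simp only; omega
        rw [e1]
        convert this using 2
        ring
  exact hk

end Pool.Agent.W45.MC
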